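import Pool.Agent.TH972.U.VFin
import Pool.Agent.TH972.RAsym

/-!
# Ball volumes in the random spanning tree in random environment on the complete graph

The definitions `env`, `treeWt`, `gibbs`, `avg` are in `Pool.Agent.TH972.RDefs`.
-/

set_option autoImplicit false

open Filter Topology Pool.Agent.TH972.RSTRE

namespace Pool.Agent.Results.MP_5ba30e_pr.BallVolume

open Classical in
/-- The number of vertices at graph distance at most `r` from `v`. -/
noncomputable def vol {n : ℕ} (T : SimpleGraph (Fin n)) (v : Fin n) (r : ℝ) : ℕ :=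
  (Finset.univ.filter (fun u => (T.dist v u : ℝ) ≤ r)).card

/-- The averaged probability of the event `A T v`, where `v` is a uniformly random vertex,
independent of the environment and of the tree `T`. -/
noncomputable def typ (β : ℝ) (n : ℕ) (A : SimpleGraph (Fin n) → Fin n → Prop) : ℝ :=
  (∑ v : Fin n, avg β n (fun T => A T v)) / n

/-- The averaged probability of `n ^ (a - ε) ≤ diam ≤ n ^ (a + ε)` tends to one for all
`ε > 0`, for the sequence `β` of inverse temperatures. -/
def HasDiam (β : ℕ → ℝ) (a : ℝ) : Prop :=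
  ∀ ε : ℝ, 0 < ε → Tendsto (fun n : ℕ => avg (β n) n (fun T =>
    (n : ℝ) ^ (a - ε) ≤ (T.diam : ℝ) ∧ (T.diam : ℝ) ≤ (n : ℝ) ^ (a + ε))) atTop (𝓝 1)

open Pool.Agent.TH972 Pool.Agent.TH972.U in
/-- the ball of radius `lam * diam` around a typical vertex has at least `n ^ (1 - δ)` vertices -/
theorem large (β : ℕ → ℝ) (hβ : ∀ n, 0 ≤ β n) {lam δ : ℝ} (hlam : 0 < lam) (hδ : 0 < δ) :
    Tendsto (fun n : ℕ => typ (β n) n (fun T v =>
      (n : ℝ) ^ (1 - δ) ≤ (vol T v (lam * T.diam) : ℝ))) atTop (𝓝 1) := by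
  have hlog : Tendsto (fun n : ℕ => Real.log n) atTop atTop :=
    Real.tendsto_log_atTop.comp (tendsto_natCast_atTop_atTop (R := ℝ))
  have hlim : Tendsto (fun n : ℕ => 1 - 100 / Real.log n) atTop (𝓝 1) := by
    have h4 := hlog.const_div_atTop 100
    simpa using (tendsto_const_nhds (x := (1 : ℝ))).sub h4
  refine tendsto_of_tendsto_of_tendsto_of_le_of_le' hlim tendsto_const_nhds ?_ ?_
  · filter_upwards [ball_unif hlam hδ, eventually_ge_atTop 1] with n h hn
    have hn0 : (0 : ℝ) < n := by exact_mod_cast hn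
    have h1 := h (β n) (hβ n)
    unfold typ
    rw [le_div_iff₀ hn0]
    refine h1.trans (Finset.sum_le_sum fun v _ => ?_)
    rw [avg_eq]
    refine avgw_mono (wexp_pos _) (wexp_meas _) ?_
    intro T _ hT
    refine hT.trans ?_
    have h2 : (ball T v ⌊lam * (T.diam : ℝ)⌋₊).card ≤ vol T v (lam * T.diam) := by
      classical
      unfold vol ball
      refine Finset.card_le_card ?_
      intro u hu
      simp only [Finset.mem_filter, Finset.mem_univ, true_and] at hu ⊢
      obtain ⟨p, hp⟩ := hu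
      have h3 : T.dist v u ≤ ⌊lam * (T.diam : ℝ)⌋₊ := (SimpleGraph.dist_le p).trans hp
      have h4 : (0 : ℝ) ≤ lam * T.diam := by positivity
      exact (Nat.cast_le.2 h3).trans (Nat.floor_le h4)
    exact_mod_cast h2
  · filter_upwards [eventually_ge_atTop 1] with n hn
    have hn0 : (0 : ℝ) < n := by exact_mod_cast hn
    unfold typ
    rw [div_le_one hn0]
    calc ∑ v : Fin n, avg (β n) n (fun T => (n : ℝ) ^ (1 - δ) ≤ (vol T v (lam * T.diam) : ℝ))
        ≤ ∑ _v : Fin n, (1 : ℝ) := Finset.sum_le_sum fun v _ => by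
          rw [avg_eq]
          exact avgw_le_one (wexp_pos _) (wexp_meas _) _
      _ = n := by simp

theorem vol_le {n : ℕ} (T : SimpleGraph (Fin n)) (v : Fin n) (r : ℝ) : (vol T v r : ℝ) ≤ n := by
  have h : vol T v r ≤ n := by
    unfold vol
    refine (Finset.card_le_univ _).trans ?_
    rw [Fintype.card_fin]
  exact_mod_cast h

open Pool.Agent.TH972 Pool.Agent.TH972.U in
theorem typ_inter {β : ℝ} {n : ℕ} (hn : 1 ≤ n) {A C : SimpleGraph (Fin n) → Fin n → Prop}
    {D : SimpleGraph (Fin n) → Prop}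
    (h : ∀ (T : SimpleGraph (Fin n)) (v : Fin n), T.IsTree → A T v → D T → C T v) :
    typ β n A - (1 - avg β n D) ≤ typ β n C := by
  have hn0 : (0 : ℝ) < n := by exact_mod_cast hn
  haveI : Nonempty (Fin n) := ⟨⟨0, hn⟩⟩
  unfold typ
  have h1 : ∀ v : Fin n, avg β n (fun T => A T v) - (1 - avg β n D) ≤
      avg β n (fun T => C T v) := by
    intro v
    rw [avg_eq, avg_eq, avg_eq]
    have h2 := avgw_inter (w := wexp β) (n := n) (wexp_pos _) (wexp_meas _)
      (A := fun T => A T v) (B := D) (C := fun T => C T v) (fun T hT hA hD => h T v hT hA hD)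
      (a := 1 - avgw (wexp β) n (fun T => A T v)) (b := 1 - avgw (wexp β) n D)
      (by linarith) (by linarith)
    linarith
  have h2 : ∑ v : Fin n, (avg β n (fun T => A T v) - (1 - avg β n D)) ≤
      ∑ v : Fin n, avg β n (fun T => C T v) := Finset.sum_le_sum fun v _ => h1 v
  rw [Finset.sum_sub_distrib, Finset.sum_const, Finset.card_univ, Fintype.card_fin,
    nsmul_eq_mul] at h2
  rw [le_div_iff₀ hn0, sub_mul, div_mul_cancel₀ _ hn0.ne']
  linarith

open Pool.Agent.TH972 Pool.Agent.TH972.U in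
theorem typ_le_one (β : ℝ) (n : ℕ) (A : SimpleGraph (Fin n) → Fin n → Prop) :
    typ β n A ≤ 1 := by
  unfold typ
  refine div_le_one_of_le₀ ?_ (Nat.cast_nonneg n)
  calc ∑ v : Fin n, avg β n (fun T => A T v) ≤ ∑ _v : Fin n, (1 : ℝ) :=
        Finset.sum_le_sum fun v _ => by
          rw [avg_eq]
          exact avgw_le_one (wexp_pos _) (wexp_meas _) _
    _ = n := by simp

/-- the numerical part -/
theorem num {N a lam e D V : ℝ} (hN : 1 ≤ N) (ha : 0 < a) (ha1 : a < 1) (hl : 0 < lam)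
    (hl1 : lam ≤ 1) (he : 0 < e) (he1 : e * (2 * a) ≤ 1)
    (hbig : 1 ≤ lam ^ (1 / a + e) * N ^ (a * e / 4))
    (hD1 : N ^ (a - a ^ 2 * e / 4) ≤ D) (hD2 : D ≤ N ^ (a + a ^ 2 * e / 4))
    (hV1 : N ^ (1 - a * e / 2) ≤ V) (hV2 : V ≤ N) :
    (lam * D) ^ (1 / a - e) ≤ V ∧ V ≤ (lam * D) ^ (1 / a + e) := by
  have hN0 : 0 < N := by linarith
  have hD0 : 0 < D := lt_of_lt_of_le (Real.rpow_pos_of_pos hN0 _) hD1
  have hae : a * e ≤ 1 / 2 := by linarith
  have hae0 : 0 < a * e := mul_pos ha he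
  have h1a : e ≤ 1 / a := by
    rw [le_div_iff₀ ha]
    linarith
  constructor
  · have h1 : lam * D ≤ N ^ (a + a ^ 2 * e / 4) := by
      have : lam * D ≤ 1 * D := mul_le_mul_of_nonneg_right hl1 hD0.le
      linarith
    calc (lam * D) ^ (1 / a - e) ≤ (N ^ (a + a ^ 2 * e / 4)) ^ (1 / a - e) :=
          Real.rpow_le_rpow (by positivity) h1 (by linarith)
      _ = N ^ ((a + a ^ 2 * e / 4) * (1 / a - e)) := (Real.rpow_mul hN0.le _ _).symm
      _ ≤ N ^ (1 - a * e / 2) := by
          apply Real.rpow_le_rpow_of_exponent_le hN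
          have e1 : (a + a ^ 2 * e / 4) * (1 / a - e) =
              1 + a * e / 4 - a * e - (a * e) ^ 2 / 4 := by
            field_simp
            ring
          rw [e1]
          nlinarith [sq_nonneg (a * e)]
      _ ≤ V := hV1
  · have h1 : lam * N ^ (a - a ^ 2 * e / 4) ≤ lam * D := mul_le_mul_of_nonneg_left hD1 hl.le
    have hp : 0 < N ^ (a - a ^ 2 * e / 4) := Real.rpow_pos_of_pos hN0 _
    have h2 : 0 ≤ 1 / a + e := by positivity
    calc V ≤ N := hV2
      _ = N ^ (1 : ℝ) * 1 := by rw [Real.rpow_one, mul_one]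
      _ ≤ N ^ (1 : ℝ) * (lam ^ (1 / a + e) * N ^ (a * e / 4)) :=
          mul_le_mul_of_nonneg_left hbig (Real.rpow_nonneg hN0.le _)
      _ = lam ^ (1 / a + e) * N ^ (1 + a * e / 4) := by
          rw [Real.rpow_add hN0]
          ring
      _ ≤ lam ^ (1 / a + e) * N ^ ((a - a ^ 2 * e / 4) * (1 / a + e)) := by
          apply mul_le_mul_of_nonneg_left _ (Real.rpow_nonneg hl.le _)
          apply Real.rpow_le_rpow_of_exponent_le hN
          have e1 : (a - a ^ 2 * e / 4) * (1 / a + e) =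
              1 - a * e / 4 + a * e - (a * e) ^ 2 / 4 := by
            field_simp
            ring
          rw [e1]
          nlinarith [sq_nonneg (a * e)]
      _ = (lam * N ^ (a - a ^ 2 * e / 4)) ^ (1 / a + e) := by
          rw [Real.mul_rpow hl.le hp.le, ← Real.rpow_mul hN0.le]
      _ ≤ (lam * D) ^ (1 / a + e) := Real.rpow_le_rpow (by positivity) h1 h2

/-- The answer to the question. First part: for every sequence of inverse temperatures, every
`lam ∈ (0, 1]` and `δ > 0`, the ball of radius `lam * diam` around a typical vertex has at least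
`n ^ (1 - δ)` vertices with averaged probability tending to one. Second part: if the diameter is
`n ^ (a + o(1))` with `0 < a < 1`, then its volume is `r ^ (1/a + o(1))`, `r = lam * diam`. -/
theorem result : ∀ β : ℕ → ℝ, (∀ n, 0 ≤ β n) →
    (∀ lam : ℝ, 0 < lam → lam ≤ 1 → ∀ δ : ℝ, 0 < δ →
      Tendsto (fun n : ℕ => typ (β n) n (fun T v =>
        (n : ℝ) ^ (1 - δ) ≤ (vol T v (lam * T.diam) : ℝ))) atTop (𝓝 1)) ∧
    (∀ a : ℝ, 0 < a → a < 1 → HasDiam β a → ∀ lam : ℝ, 0 < lam → lam ≤ 1 → ∀ ε : ℝ, 0 < ε →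
      Tendsto (fun n : ℕ => typ (β n) n (fun T v =>
        (lam * T.diam : ℝ) ^ (1 / a - ε) ≤ (vol T v (lam * T.diam) : ℝ) ∧
          (vol T v (lam * T.diam) : ℝ) ≤ (lam * T.diam : ℝ) ^ (1 / a + ε))) atTop (𝓝 1)) := by
  intro β hβ
  refine ⟨fun lam hlam _ δ hδ => large β hβ hlam hδ, ?_⟩
  intro a ha ha1 hdiam lam hlam hlam1 ε hε
  obtain ⟨e, he⟩ : ∃ e : ℝ, e = min ε (1 / (2 * a)) := ⟨_, rfl⟩
  have he0 : 0 < e := by rw [he]; exact lt_min hε (by positivity)
  have heε : e ≤ ε := by rw [he]; exact min_le_left _ _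
  have hea : e * (2 * a) ≤ 1 := by
    have h1 : e ≤ 1 / (2 * a) := by rw [he]; exact min_le_right _ _
    rwa [le_div_iff₀ (by positivity)] at h1
  have h1 := large β hβ (lam := lam) (δ := a * e / 2) hlam (by positivity)
  have h2 := hdiam (a ^ 2 * e / 4) (by positivity)
  have hlim : Tendsto (fun n : ℕ => typ (β n) n (fun T v =>
      (n : ℝ) ^ (1 - a * e / 2) ≤ (vol T v (lam * T.diam) : ℝ)) -
      (1 - avg (β n) n (fun T => (n : ℝ) ^ (a - a ^ 2 * e / 4) ≤ (T.diam : ℝ) ∧
        (T.diam : ℝ) ≤ (n : ℝ) ^ (a + a ^ 2 * e / 4)))) atTop (𝓝 1) := by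
    have h3 := h1.sub ((tendsto_const_nhds (x := (1 : ℝ))).sub h2)
    simpa using h3
  have hpow : ∀ c : ℝ, 0 < c → Tendsto (fun n : ℕ => (n : ℝ) ^ c) atTop atTop := fun c hc =>
    (tendsto_rpow_atTop hc).comp (tendsto_natCast_atTop_atTop (R := ℝ))
  refine tendsto_of_tendsto_of_tendsto_of_le_of_le' hlim tendsto_const_nhds ?_ ?_
  · filter_upwards [eventually_ge_atTop 1,
      (hpow (a * e / 4) (by positivity)).eventually_ge_atTop (1 / lam ^ (1 / a + e)),
      (hpow (a - a ^ 2 * e / 4) (by nlinarith)).eventually_ge_atTop (1 / lam)] with n hn hb hb2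
    have hn1 : (1 : ℝ) ≤ n := by exact_mod_cast hn
    refine typ_inter hn ?_
    intro T v _ hA hD
    have hlp : 0 < lam ^ (1 / a + e) := Real.rpow_pos_of_pos hlam _
    have hbig : 1 ≤ lam ^ (1 / a + e) * (n : ℝ) ^ (a * e / 4) := by
      rw [div_le_iff₀ hlp] at hb
      linarith
    obtain ⟨k1, k2⟩ := num hn1 ha ha1 hlam hlam1 he0 hea hbig hD.1 hD.2 hA (vol_le T v _)
    have hr : 1 ≤ lam * (T.diam : ℝ) := by
      rw [div_le_iff₀ hlam] at hb2
      have := mul_le_mul_of_nonneg_left hD.1 hlam.le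
      linarith
    constructor
    · exact (Real.rpow_le_rpow_of_exponent_le hr (by linarith)).trans k1
    · exact k2.trans (Real.rpow_le_rpow_of_exponent_le hr (by linarith))
  · exact Filter.Eventually.of_forall fun n => typ_le_one _ _ _

end Pool.Agent.Results.MP_5ba30e_pr.BallVolume
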